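import Mathlib
import Pool.Agent.H47.Cantor2

namespace Pool.Agent.Results.MP_f007e6_nt.Prescribed
open Finset Filter Topology

/-- `E 1, E 2, ...` are the digits of the `q`-Cantor series expansion of `x`. -/
def IsExpansion (q : ℕ → ℕ) (x : ℝ) (E : ℕ → ℕ) : Prop :=
  (∀ n, 1 ≤ n → E n < q n) ∧ {n | 1 ≤ n ∧ E n ≠ q n - 1}.Infinite ∧
    HasSum (fun n => (E (n + 1) : ℝ) / ∏ j ∈ Icc 1 (n + 1), (q j : ℝ)) (x - ⌊x⌋)

/-- `Q_n^{(k)}` -/
noncomputable def Qsum (q : ℕ → ℕ) (k n : ℕ) : ℝ :=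
  ∑ j ∈ Icc 1 n, (∏ t ∈ range k, (q (j + t) : ℝ))⁻¹

open Classical in
/-- number of positions `1 ≤ i ≤ n` at which the block `B` occurs in the digit sequence `E` -/
noncomputable def count (E : ℕ → ℕ) (k : ℕ) (B : Fin k → ℕ) (n : ℕ) : ℕ :=
  ((Icc 1 n).filter (fun i => ∀ t : Fin k, E (i + t) = B t)).card

/-- normality of order `k` of the number with digit sequence `E` -/
def NormalOrder (q E : ℕ → ℕ) (k : ℕ) : Prop :=
  ∀ B : Fin k → ℕ, Tendsto (fun n => (count E k B n : ℝ) / Qsum q k n) atTop (𝓝 1)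

open Pool.Agent.H47.Cantor in
theorem result (A : Set ℕ) : ∃ (q : ℕ → ℕ) (x : ℝ) (E : ℕ → ℕ), (∀ n, 2 ≤ q n) ∧
    Tendsto q atTop atTop ∧ (∀ k, 1 ≤ k → Tendsto (Qsum q k) atTop atTop) ∧ IsExpansion q x E ∧
    ∀ k, 1 ≤ k → (NormalOrder q E k ↔ k ∈ A) := by
  classical
  set ρ : ℕ → ℕ := fun k => if k ∈ A then 1 else 2 with hρd
  have hρ : ∀ k, ρ k ≤ 2 := fun k => by simp only [hρd]; split_ifs <;> omega
  obtain ⟨x, hx, hs⟩ := expansion Q (E ρ hρ) (E_lt ρ hρ)
  have hS : ∀ k, Tendsto (fun n => S qq LL k (n + 1)) atTop atTop := fun k =>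
    (S_tendsto qq LL qq_one k).comp (tendsto_add_atTop_nat 1)
  have hw : ∀ k, Tendsto (fun n => Qsum Q k n / S qq LL k (n + 1)) atTop (𝓝 1) := fun k => by
    have := wt k 1 0 one_pos
    simpa [Nat.mod_one, Qsum] using this
  have hc : ∀ k, 1 ≤ k → ∀ B : Fin k → ℕ,
      Tendsto (fun n => (count (E ρ hρ) k B n : ℝ) / Qsum Q k n) atTop (𝓝 (ρ k)) := by
    intro k hk B
    have h1 := cnt ρ hρ k 1 0 hk one_pos B
    simp only [Nat.mod_one, and_true, if_true] at h1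
    have h2 := h1.div (hw k) one_ne_zero
    rw [div_one] at h2
    refine h2.congr' ?_
    filter_upwards [(hS k).eventually_gt_atTop 0] with n hn
    simp only [Pi.div_apply, count]
    rw [div_div_div_cancel_right₀ hn.ne']
  refine ⟨Q, x, E ρ hρ, fun n => by have := E_lt ρ hρ n; omega, Q_tendsto, fun k _ => ?_,
    ⟨fun n _ => by have := E_lt ρ hρ n; omega, ?_, by simpa [hx] using hs⟩, fun k hk => ?_⟩
  · refine ((hw k).pos_mul_atTop one_pos (hS k)).congr' ?_
    filter_upwards [(hS k).eventually_gt_atTop 0] with n hn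
    exact div_mul_cancel₀ _ hn.ne'
  · refine (Set.Ici_infinite 1).mono fun n hn => ⟨hn, ?_⟩
    have := E_lt ρ hρ n; omega
  · constructor
    · intro h
      by_contra hA
      have h1 := tendsto_nhds_unique (h fun _ => 0) (hc k hk fun _ => 0)
      simp [hρd, hA] at h1
    · intro hA B
      have := hc k hk B
      simpa [hρd, hA] using this

end Pool.Agent.Results.MP_f007e6_nt.Prescribed
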